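import Pool.Agent.Helper35_SD.Defs

/-!
Squad SD: transport of the Dirichlet problem under an injective holomorphic map.
-/

namespace Pool.Agent.SD

open MeasureTheory Complex Filter Topology Pool.Agent.H16Iso
open scoped ContDiff

/-- composition with `e` on the set `U`, extended by zero -/
noncomputable def pull (U : Set ℂ) (e : ℂ → ℂ) : (ℂ → ℝ) →ₗ[ℝ] (ℂ → ℝ) where
  toFun u := U.indicator (fun z => u (e z))
  map_add' u v := by
    ext z
    by_cases hz : z ∈ U <;> simp [Set.indicator, hz]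
  map_smul' c u := by
    ext z
    by_cases hz : z ∈ U <;> simp [Set.indicator, hz]

theorem pull_of_mem {U : Set ℂ} {e : ℂ → ℂ} (u : ℂ → ℝ) {z : ℂ} (hz : z ∈ U) :
    pull U e u z = u (e z) := Set.indicator_of_mem hz (fun z => u (e z))

theorem pull_of_notMem {U : Set ℂ} {e : ℂ → ℂ} (u : ℂ → ℝ) {z : ℂ} (hz : z ∉ U) :
    pull U e u z = 0 := Set.indicator_of_notMem hz (fun z => u (e z))

/-- diffeomorphism between open sets -/
structure Df (U V : Set ℂ) (Φ Ψ : ℂ → ℂ) : Prop where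
  oU : IsOpen U
  oV : IsOpen V
  mp : ∀ z ∈ U, Φ z ∈ V
  mq : ∀ w ∈ V, Ψ w ∈ U
  l : ∀ z ∈ U, Ψ (Φ z) = z
  r : ∀ w ∈ V, Φ (Ψ w) = w
  s : ContDiffOn ℝ ∞ Φ U
  t : ContDiffOn ℝ ∞ Ψ V

theorem Df.symm {U V : Set ℂ} {Φ Ψ : ℂ → ℂ} (h : Df U V Φ Ψ) : Df V U Ψ Φ :=
  ⟨h.oV, h.oU, h.mq, h.mp, h.r, h.l, h.t, h.s⟩

theorem Df.image {U V : Set ℂ} {Φ Ψ : ℂ → ℂ} (h : Df U V Φ Ψ) : Φ '' U = V := by
  ext w
  constructor
  · rintro ⟨z, hz, rfl⟩
    exact h.mp z hz
  · intro hw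
    exact ⟨Ψ w, h.mq w hw, h.r w hw⟩

theorem test_zero {V : Set ℂ} {u : ℂ → ℝ} (hu : u ∈ Test V) {w : ℂ} (hw : w ∉ V) : u w = 0 := by
  by_contra h0
  exact hw (hu.2.2 (subset_tsupport u h0))

theorem pull_mem {U V : Set ℂ} {Φ Ψ : ℂ → ℂ} (h : Df U V Φ Ψ) {u : ℂ → ℝ} (hu : u ∈ Test V) :
    pull U Φ u ∈ Test U := by
  obtain ⟨su, cu, tu⟩ := hu
  set K := Ψ '' tsupport u with hK
  have cK : IsCompact K := cu.isCompact.image_of_continuousOn (h.t.continuousOn.mono tu)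
  have sK : K ⊆ U := by
    rintro _ ⟨w, hw, rfl⟩
    exact h.mq w (tu hw)
  have zK : ∀ z, z ∉ K → pull U Φ u z = 0 := by
    intro z hz
    by_cases hzU : z ∈ U
    · rw [pull_of_mem u hzU]
      by_contra h0
      apply hz
      exact ⟨Φ z, subset_tsupport u h0, h.l z hzU⟩
    · exact pull_of_notMem u hzU
  refine ⟨?_, HasCompactSupport.intro cK zK, ?_⟩
  · rw [contDiff_iff_contDiffAt]
    intro z
    by_cases hzU : z ∈ U
    · have h1 : ContDiffAt ℝ ∞ (fun z => u (Φ z)) z :=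
        su.contDiffAt.comp z (h.s.contDiffAt (h.oU.mem_nhds hzU))
      apply h1.congr_of_eventuallyEq
      filter_upwards [h.oU.mem_nhds hzU] with y hy
      exact pull_of_mem u hy
    · have h1 : ContDiffAt ℝ ∞ (fun _ : ℂ => (0 : ℝ)) z := contDiffAt_const
      apply h1.congr_of_eventuallyEq
      have : Kᶜ ∈ 𝓝 z := cK.isClosed.isOpen_compl.mem_nhds (fun hz => hzU (sK hz))
      filter_upwards [this] with y hy
      exact zK y hy
  · refine (closure_minimal ?_ cK.isClosed).trans sK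
    intro z hz
    by_contra h0
    exact hz (zK z h0)

theorem pull_pull {U V : Set ℂ} {Φ Ψ : ℂ → ℂ} (h : Df U V Φ Ψ) {u : ℂ → ℝ} (hu : u ∈ Test V) :
    pull V Ψ (pull U Φ u) = u := by
  ext w
  by_cases hw : w ∈ V
  · rw [pull_of_mem _ hw, pull_of_mem _ (h.mq w hw), h.r w hw]
  · rw [pull_of_notMem _ hw, test_zero hu hw]

/-- holomorphic version -/
structure Hf (U V : Set ℂ) (Φ Ψ g : ℂ → ℂ) : Prop extends Df U V Φ Ψ where
  d : ∀ z ∈ U, HasDerivAt Φ (g z) z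

variable {U V : Set ℂ} {Φ Ψ g : ℂ → ℂ}

theorem det_mulLeft (a : ℂ) :
    (((ContinuousLinearMap.toSpanSingleton ℂ a).restrictScalars ℝ : ℂ →L[ℝ] ℂ)).det
      = ‖a‖ ^ 2 := by
  rw [ContinuousLinearMap.det]
  have h := LinearMap.det_toMatrix (basisOneI)
    (((ContinuousLinearMap.toSpanSingleton ℂ a).restrictScalars ℝ : ℂ →L[ℝ] ℂ) : ℂ →ₗ[ℝ] ℂ)
  rw [← h, Matrix.det_fin_two]
  simp only [LinearMap.toMatrix_apply, coe_basisOneI, coe_basisOneI_repr]
  simp [Complex.sq_norm, Complex.normSq_apply]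

theorem Hf.hasFDerivAt (h : Hf U V Φ Ψ g) {z : ℂ} (hz : z ∈ U) :
    HasFDerivAt Φ ((ContinuousLinearMap.toSpanSingleton ℂ (g z)).restrictScalars ℝ : ℂ →L[ℝ] ℂ) z :=
  (h.d z hz).hasFDerivAt.restrictScalars ℝ

theorem Hf.injOn (h : Hf U V Φ Ψ g) : Set.InjOn Φ U := by
  intro x hx y hy hxy
  rw [← h.l x hx, ← h.l y hy, hxy]

/-- change of variables -/
theorem Hf.change (h : Hf U V Φ Ψ g) (F : ℂ → ℝ) :
    ∫ w in V, F w = ∫ z in U, ‖g z‖ ^ 2 * F (Φ z) := by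
  rw [← h.toDf.image, integral_image_eq_integral_abs_det_fderiv_smul volume
    h.oU.measurableSet (fun z hz => (h.hasFDerivAt hz).hasFDerivWithinAt) h.injOn]
  refine setIntegral_congr_fun h.oU.measurableSet fun z _ => ?_
  simp only [det_mulLeft, smul_eq_mul]
  rw [abs_of_nonneg (by positivity)]

theorem setInt_test {V : Set ℂ} (F : ℂ → ℝ) (h : ∀ w, w ∉ V → F w = 0) :
    ∫ w in V, F w = ∫ w, F w := setIntegral_eq_integral_of_forall_compl_eq_zero h

theorem fderiv_test_zero {V : Set ℂ} {u : ℂ → ℝ} (hu : u ∈ Test V) {w : ℂ} (hw : w ∉ V) :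
    fderiv ℝ u w = 0 := by
  have h1 : w ∉ tsupport u := fun h => hw (hu.2.2 h)
  by_contra h0
  exact h1 (support_fderiv_subset ℝ h0)

theorem mass_set {u : ℂ → ℝ} (hu : u ∈ Test V) : ∫ w in V, u w ^ 2 = mass u := by
  rw [mass, setInt_test]
  intro w hw
  rw [test_zero hu hw]
  simp

theorem energy_set {u : ℂ → ℝ} (hu : u ∈ Test V) :
    ∫ w in V, (fderiv ℝ u w 1 ^ 2 + fderiv ℝ u w I ^ 2) = energy u := by
  rw [energy, setInt_test]
  intro w hw
  rw [fderiv_test_zero hu hw]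
  simp

theorem energy_pull (h : Hf U V Φ Ψ g) {u : ℂ → ℝ} (hu : u ∈ Test V) :
    energy (pull U Φ u) = energy u := by
  rw [← energy_set hu, h.change, ← energy_set (pull_mem h.toDf hu)]
  refine setIntegral_congr_fun h.oU.measurableSet fun z hz => ?_
  have e1 : fderiv ℝ (pull U Φ u) z
      = (fderiv ℝ u (Φ z)).comp
        ((ContinuousLinearMap.toSpanSingleton ℂ (g z)).restrictScalars ℝ : ℂ →L[ℝ] ℂ) := by
    have h1 : HasFDerivAt (fun z => u (Φ z)) ((fderiv ℝ u (Φ z)).comp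
        ((ContinuousLinearMap.toSpanSingleton ℂ (g z)).restrictScalars ℝ : ℂ →L[ℝ] ℂ)) z :=
      ((hu.1.differentiable (by simp)) (Φ z)).hasFDerivAt.comp z (h.hasFDerivAt hz)
    have h2 : pull U Φ u =ᶠ[𝓝 z] fun z => u (Φ z) := by
      filter_upwards [h.oU.mem_nhds hz] with y hy
      exact pull_of_mem u hy
    exact (h1.congr_of_eventuallyEq h2).fderiv
  have key : ∀ (L : ℂ →L[ℝ] ℝ) (a : ℂ), L a ^ 2 + L (I * a) ^ 2
      = ‖a‖ ^ 2 * (L 1 ^ 2 + L I ^ 2) := by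
    intro L a
    have r1 : L a = a.re * L 1 + a.im * L I := by
      conv_lhs => rw [← re_add_im a]
      rw [map_add]
      have : (a.re : ℂ) = a.re • (1 : ℂ) := by simp
      rw [this, map_smul]
      have : (a.im : ℂ) * I = a.im • I := by simp
      rw [this, map_smul]
      simp
    have r2 : L (I * a) = a.re * L I - a.im * L 1 := by
      have : I * a = a.re • I + (-a.im) • (1 : ℂ) := by
        apply Complex.ext <;> simp
      rw [this, map_add, map_smul, map_smul]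
      simp only [smul_eq_mul]
      ring
    rw [r1, r2, Complex.sq_norm, Complex.normSq_apply]
    ring
  simp only [e1, ContinuousLinearMap.comp_apply, ContinuousLinearMap.coe_restrictScalars',
    ContinuousLinearMap.toSpanSingleton_apply, smul_eq_mul, one_mul]
  exact key _ _

theorem mass_pull (h : Hf U V Φ Ψ g) {u : ℂ → ℝ} (hu : u ∈ Test V) :
    ∫ z in U, ‖g z‖ ^ 2 * pull U Φ u z ^ 2 = mass u := by
  rw [← mass_set hu, h.change]
  refine setIntegral_congr_fun h.oU.measurableSet fun z hz => ?_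
  simp only [pull_of_mem u hz]

theorem finrank_map_pull (h : Df U V Φ Ψ) {W : Submodule ℝ (ℂ → ℝ)} (hW : W ≤ Test V) :
    Module.finrank ℝ (W.map (pull U Φ)) = Module.finrank ℝ W := by
  have e1 : W.map (pull U Φ) = LinearMap.range ((pull U Φ).domRestrict W) := by
    rw [LinearMap.range_domRestrict]
  rw [e1]
  apply LinearMap.finrank_range_of_inj
  intro x y hxy
  apply Subtype.ext
  rw [← pull_pull h (hW x.2), ← pull_pull h (hW y.2)]
  have : pull U Φ (x : ℂ → ℝ) = pull U Φ (y : ℂ → ℝ) := hxy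
  rw [this]

/-- TRANSPORT: the Dirichlet eigenvalues of the image are the eigenvalues with the weight
`|Φ'|²` -/
theorem dirEig_transport (h : Hf U V Φ Ψ g) (n : ℕ) :
    dirEig V n = sInf {t | ∃ W : Submodule ℝ (ℂ → ℝ), W ≤ Test U ∧ Module.finrank ℝ W = n + 1 ∧
      ∀ u ∈ W, energy u ≤ t * ∫ z in U, ‖g z‖ ^ 2 * u z ^ 2} := by
  rw [dirEig]
  congr 1
  ext t
  constructor
  · rintro ⟨W, hW, hn, hu⟩
    refine ⟨W.map (pull U Φ), ?_, ?_, ?_⟩
    · rintro _ ⟨u, hu, rfl⟩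
      exact pull_mem h.toDf (hW hu)
    · rw [finrank_map_pull h.toDf hW, hn]
    · rintro _ ⟨u, hu', rfl⟩
      rw [energy_pull h (hW hu'), mass_pull h (hW hu')]
      exact hu u hu'
  · rintro ⟨W, hW, hn, hu⟩
    refine ⟨W.map (pull V Ψ), ?_, ?_, ?_⟩
    · rintro _ ⟨u, hu, rfl⟩
      exact pull_mem h.toDf.symm (hW hu)
    · rw [finrank_map_pull h.toDf.symm hW, hn]
    · rintro _ ⟨u, hu', rfl⟩
      have hm : pull V Ψ u ∈ Test V := pull_mem h.toDf.symm (hW hu')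
      rw [← energy_pull h hm, ← mass_pull h hm, pull_pull h.toDf.symm (hW hu')]
      exact hu u hu'

/-- an injective holomorphic map without critical points -/
theorem exists_Hf (hU : IsOpen U) (hd : ∀ z ∈ U, HasDerivAt Φ (g z) z) (hg : ∀ z ∈ U, g z ≠ 0)
    (hi : Set.InjOn Φ U) : ∃ Ψ : ℂ → ℂ, Hf U (Φ '' U) Φ Ψ g := by
  have hD : DifferentiableOn ℂ Φ U := fun z hz => (hd z hz).differentiableAt.differentiableWithinAt
  have hA : ∀ z ∈ U, AnalyticAt ℂ Φ z := hD.analyticOnNhd hU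
  have hS : ∀ z ∈ U, HasStrictDerivAt Φ (g z) z := by
    intro z hz
    have := (hA z hz).hasStrictDerivAt
    rwa [(hd z hz).deriv] at this
  have hop : ∀ W ⊆ U, IsOpen W → IsOpen (Φ '' W) := by
    intro W hWU hW
    rw [isOpen_iff_mem_nhds]
    rintro _ ⟨z, hz, rfl⟩
    have h1 := (hS z (hWU hz)).map_nhds_eq (hg z (hWU hz))
    rw [← h1]
    exact image_mem_map (hW.mem_nhds hz)
  set Ψ := Function.invFunOn Φ U with hΨ
  have hl : ∀ z ∈ U, Ψ (Φ z) = z := fun z hz => hi.leftInvOn_invFunOn hz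
  have hc : ∀ z ∈ U, ContinuousAt Ψ (Φ z) := by
    intro z hz
    rw [ContinuousAt, hl z hz, (nhds_basis_opens z).tendsto_right_iff]
    rintro W ⟨hzW, hW⟩
    have h1 : Φ '' (W ∩ U) ∈ 𝓝 (Φ z) :=
      (hop _ Set.inter_subset_right (hW.inter hU)).mem_nhds ⟨z, ⟨hzW, hz⟩, rfl⟩
    filter_upwards [h1] with w hw
    obtain ⟨y, ⟨hy, hyU⟩, rfl⟩ := hw
    rw [hl y hyU]
    exact hy
  have hV : IsOpen (Φ '' U) := hop U le_rfl hU
  have hdΨ : DifferentiableOn ℂ Ψ (Φ '' U) := by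
    rintro _ ⟨z, hz, rfl⟩
    have h1 : HasDerivAt Φ (g z) (Ψ (Φ z)) := by
      rw [hl z hz]
      exact hd z hz
    have h2 : ∀ᶠ y in 𝓝 (Φ z), Φ (Ψ y) = y := by
      filter_upwards [hV.mem_nhds ⟨z, hz, rfl⟩] with y hy
      obtain ⟨x, hx, rfl⟩ := hy
      rw [hl x hx]
    exact (HasDerivAt.of_local_left_inverse (hc z hz) h1 (hg z hz)
      h2).differentiableAt.differentiableWithinAt
  refine ⟨Ψ, ⟨⟨hU, hV, fun z hz => ⟨z, hz, rfl⟩, ?_, hl, ?_, ?_, ?_⟩, hd⟩⟩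
  · rintro _ ⟨z, hz, rfl⟩
    rw [hl z hz]
    exact hz
  · rintro _ ⟨z, hz, rfl⟩
    rw [hl z hz]
  · intro z hz
    exact ((hA z hz).contDiffAt.restrict_scalars ℝ).contDiffWithinAt
  · intro w hw
    exact ((hdΨ.analyticOnNhd hV w hw).contDiffAt.restrict_scalars ℝ).contDiffWithinAt

end Pool.Agent.SD
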